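import Pool.Agent.MP_4716e9_gt.NN.Defs

open Set Topology Filter Metric TopologicalSpace

namespace Pool.Agent.MP_4716e9_gt.NN

universe u v

variable {X : Type u}

theorem hasSep {Z : Type v} [TopologicalSpace Z] {s t : Set Z} (W : Set (Set Z))
    (hc : W.Countable) (h1 : s ⊆ ⋃₀ W) (h2 : ∀ w ∈ W, IsOpen w ∧ Disjoint (closure w) t) :
    HasSeparatingCover s t := by
  obtain ⟨u, hu⟩ := (hc.insert ∅).exists_eq_range (insert_nonempty _ _)
  refine ⟨u, fun x hx => ?_, fun n => ?_⟩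
  · obtain ⟨w, hw, hx⟩ := h1 hx
    obtain ⟨n, rfl⟩ : w ∈ range u := hu ▸ mem_insert_of_mem _ hw
    exact mem_iUnion.2 ⟨n, hx⟩
  · rcases (hu ▸ mem_range_self n : u n ∈ insert ∅ W) with h | h
    · simp [h]
    · exact h2 _ h

theorem sep [PseudoMetricSpace X] {α : Type v} (O : α → Set X) (hO : ∀ a, IsOpen (O a)) :
    ∃ F : ℕ → α → Set X, (∀ k a, F k a ⊆ O a) ∧ (∀ a, ∀ x ∈ O a, ∃ k b, x ∈ F k b) ∧
      ∀ (k : ℕ) a b, ∀ x ∈ F k a, ∀ y ∈ F k b, dist x y < 1 / (k + 1 : ℝ) → a = b := by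
  obtain ⟨_, _⟩ := exists_wellFoundedLT α
  refine ⟨fun k a => {y | ball y (1 / (k + 1 : ℝ)) ⊆ O a ∧ ∀ b < a, y ∉ O b},
    fun k a y hy => hy.1 (mem_ball_self Nat.one_div_pos_of_nat), fun a x hx => ?_,
    fun k a b x hx y hy h => ?_⟩
  · obtain ⟨b, hb, hm⟩ := wellFounded_lt.has_min {b | x ∈ O b} ⟨a, hx⟩
    obtain ⟨ε, hε, h⟩ := Metric.isOpen_iff.1 (hO b) x hb
    obtain ⟨k, hk⟩ := exists_nat_one_div_lt hε
    exact ⟨k, b, (ball_subset_ball hk.le).trans h, fun c hc hx => hm c hx hc⟩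
  · rcases lt_trichotomy a b with e | e | e
    · exact absurd (hx.1 (mem_ball'.2 h)) (hy.2 a e)
    · exact e
    · exact absurd (hy.1 (mem_ball.2 h)) (hx.2 b e)

/-- covered by countably many sets that have `P` near each of their points -/
def SL [TopologicalSpace X] (P : Set X → Prop) (D : Set X) : Prop :=
  ∃ E : ℕ → Set X, D ⊆ ⋃ n, E n ∧ ∀ n, ∀ x ∈ E n, ∃ O ∈ 𝓝 x, P (O ∩ E n)

/-- a local sigma-ideal -/
structure Idl [TopologicalSpace X] (J : Set X → Prop) : Prop where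
  mono : ∀ {A B}, A ⊆ B → J B → J A
  iUnion : ∀ A : ℕ → Set X, (∀ n, J (A n)) → J (⋃ n, A n)
  loc : ∀ D, (∀ x ∈ D, ∃ O ∈ 𝓝 x, J (O ∩ D)) → J D

theorem idl_SL [PseudoMetricSpace X] {P : Set X → Prop} (hP : ∀ {A B}, A ⊆ B → P B → P A) :
    Idl (SL P) := by
  have mono : ∀ {A B}, A ⊆ B → SL P B → SL P A := fun h ⟨E, h1, h2⟩ => ⟨E, h.trans h1, h2⟩
  have un : ∀ A : ℕ → Set X, (∀ n, SL P (A n)) → SL P (⋃ n, A n) := fun A h => by
    choose E h1 h2 using h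
    refine ⟨fun n => E n.unpair.1 n.unpair.2, iUnion_subset fun n x hx => ?_, fun n => h2 _ _⟩
    obtain ⟨k, hk⟩ := mem_iUnion.1 (h1 n hx)
    exact mem_iUnion.2 ⟨n.pair k, by simpa using hk⟩
  refine ⟨mono, un, fun D h => ?_⟩
  choose O hO E h1 h2 using fun x : D => h x x.2
  obtain ⟨F, f1, f2, f3⟩ := sep (fun a => interior (O a)) fun _ => isOpen_interior
  refine mono (B := ⋃ k, ⋃ n, ⋃ a, F k a ∩ E a n) (fun x hx => ?_)
    (un _ fun k => ⟨_, subset_rfl, fun n x hx => ?_⟩)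
  · obtain ⟨k, b, hb⟩ := f2 ⟨x, hx⟩ x (mem_interior_iff_mem_nhds.2 (hO ⟨x, hx⟩))
    obtain ⟨n, hn⟩ := mem_iUnion.1 (h1 b ⟨interior_subset (f1 k b hb), hx⟩)
    exact mem_iUnion.2 ⟨k, mem_iUnion.2 ⟨n, mem_iUnion.2 ⟨b, hb, hn⟩⟩⟩
  · obtain ⟨a, ha, hx⟩ := mem_iUnion.1 hx
    obtain ⟨U, hU, hp⟩ := h2 a n x hx
    refine ⟨U ∩ ball x (1 / (k + 1 : ℝ)),
      inter_mem hU (ball_mem_nhds _ Nat.one_div_pos_of_nat), hP ?_ hp⟩
    rintro y ⟨⟨y1, y2⟩, hy⟩
    obtain ⟨b, hb, hy⟩ := mem_iUnion.1 hy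
    exact ⟨y1, f3 k b a y hb x ha y2 ▸ hy⟩

section
variable [TopologicalSpace X] {J : Set X → Prop}

theorem Idl.empty (hJ : Idl J) : J ∅ := hJ.loc _ (by simp)

theorem Idl.sUnion (hJ : Idl J) {W : Set (Set X)} (hc : W.Countable) (h : ∀ w ∈ W, J w) :
    J (⋃₀ W) := by
  obtain ⟨u, hu⟩ := (hc.insert ∅).exists_eq_range (insert_nonempty _ _)
  refine hJ.mono (B := ⋃ n, u n) ?_ (hJ.iUnion u fun n => ?_)
  · rintro x ⟨w, hw, hx⟩
    obtain ⟨n, rfl⟩ : w ∈ range u := hu ▸ mem_insert_of_mem _ hw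
    exact mem_iUnion.2 ⟨n, hx⟩
  · rcases (hu ▸ mem_range_self n : u n ∈ insert ∅ W) with e | e
    · exact e ▸ hJ.empty
    · exact h _ e

theorem Idl.union (hJ : Idl J) {A B : Set X} (hA : J A) (hB : J B) : J (A ∪ B) := by
  rw [← sUnion_pair]
  exact hJ.sUnion (toFinite _).countable (by rintro _ (rfl | rfl) <;> assumption)

/-- the points near which `D` is not small -/
def ker (J : Set X → Prop) (D : Set X) : Set X := {x | ∀ O ∈ 𝓝 x, ¬ J (O ∩ D)}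

theorem isClosed_ker (D : Set X) : IsClosed (ker J D) := by
  refine isClosed_of_closure_subset fun x hx O hO => ?_
  obtain ⟨y, hy, hk⟩ := mem_closure_iff_nhds.1 hx _ (interior_mem_nhds.2 hO)
  exact hk O (mem_interior_iff_mem_nhds.1 hy)

theorem Idl.diff_ker (hJ : Idl J) (D : Set X) : J (D \ ker J D) := by
  refine hJ.loc _ fun x hx => ?_
  obtain ⟨O, hO⟩ := not_forall.1 hx.2
  push Not at hO
  exact ⟨O, hO.1, hJ.mono (inter_subset_inter_right _ sdiff_subset) hO.2⟩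

/-- the ultrafilters that avoid `J` and do not converge -/
def Y0 (J : Set X → Prop) : Set (Ultrafilter X) :=
  {u | (∀ D, J D → D ∉ u) ∧ ∀ x, ¬ (u : Filter X) ≤ 𝓝 x}

theorem key [RegularSpace X] (hJ : Idl J) {T : Type u} [TopologicalSpace T]
    [SecondCountableTopology T]
    (hd : ∀ (S : Type u) [TopologicalSpace S] (p : S → T) (f : S → X), IsProperMap p →
      Continuous f → J (range f))
    (C : Set (T × X)) (hC : ∀ t, ∀ u ∈ Y0 J, ∃ B ∈ 𝓝 t, {x | ∃ s ∈ B, (s, x) ∈ C} ∉ u) :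
    J (Prod.snd '' C) := by
  let sec : Set T → Set X := fun B => {x | ∃ s ∈ B, (s, x) ∈ C}
  have sm : ∀ {B B'}, B ⊆ B' → sec B ⊆ sec B' := fun h x ⟨s, hs, hx⟩ => ⟨s, h hs, hx⟩
  let S := {q : T × X // ∀ B ∈ countableBasis T, q.1 ∈ B → q.2 ∈ ker J (sec B)}
  have hp : IsProperMap fun q : S => q.1.1 := by
    refine isProperMap_iff_ultrafilter.2 ⟨by fun_prop, fun 𝒰 t ht => ?_⟩
    let v : Ultrafilter X := 𝒰.map fun q => q.1.2
    have hv : ∀ B ∈ countableBasis T, t ∈ B → ker J (sec B) ∈ v := fun B hB h =>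
      Ultrafilter.mem_map.2 (mem_of_superset (f := (𝒰 : Filter S))
        (ht ((isOpen_of_mem_countableBasis hB).mem_nhds h)) fun q hq => q.2 B hB hq)
    let F : Filter X :=
      { sets := {W | ∃ O, IsOpen O ∧ O ∈ v ∧ ∃ B ∈ 𝓝 t, J ((O ∩ sec B) \ W)}
        univ_sets := ⟨univ, isOpen_univ, univ_mem, univ, univ_mem, by simpa using hJ.empty⟩
        sets_of_superset := fun ⟨O, h1, h2, B, h3, h4⟩ h =>
          ⟨O, h1, h2, B, h3, hJ.mono (sdiff_subset_sdiff_right h) h4⟩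
        inter_sets := fun ⟨O, h1, h2, B, h3, h4⟩ ⟨O', k1, k2, B', k3, k4⟩ =>
          ⟨O ∩ O', h1.inter k1, inter_mem h2 k2, B ∩ B', inter_mem h3 k3, hJ.mono (by
            rintro x ⟨⟨⟨a, b⟩, c⟩, d⟩
            rcases not_and_or.1 d with d | d
            · exact Or.inl ⟨⟨a, sm inter_subset_left c⟩, d⟩
            · exact Or.inr ⟨⟨b, sm inter_subset_right c⟩, d⟩) (hJ.union h4 k4)⟩ }
    have : F.NeBot := ⟨fun h => by
      obtain ⟨O, h1, h2, B, h3, h4⟩ := empty_mem_iff_bot.2 h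
      obtain ⟨B', b1, b2, b3⟩ := (isBasis_countableBasis T).mem_nhds_iff.1 h3
      obtain ⟨x, x1, x2⟩ := v.nonempty_of_mem (inter_mem h2 (hv B' b1 b2))
      exact x2 O (h1.mem_nhds x1) (hJ.mono (B := (O ∩ sec B) \ ∅)
        (fun y hy => ⟨⟨hy.1, sm b3 hy.2⟩, id⟩) h4)⟩
    have hu := Ultrafilter.of_le F
    obtain ⟨x, hx⟩ : ∃ x, (Ultrafilter.of F : Filter X) ≤ 𝓝 x := by
      by_contra hn
      obtain ⟨B, b1, b2⟩ := hC t (Ultrafilter.of F) ⟨fun D hD => Ultrafilter.compl_mem_iff_notMem.1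
        (hu ⟨univ, isOpen_univ, univ_mem, univ, univ_mem,
          hJ.mono (fun y hy => not_not.1 hy.2) hD⟩), not_exists.1 hn⟩
      exact b2 (hu ⟨univ, isOpen_univ, univ_mem, B, b1,
        hJ.mono (fun y hy => hy.2 hy.1.2) hJ.empty⟩)
    have hvx : (v : Filter X) ≤ 𝓝 x := by
      refine (closed_nhds_basis x).ge_iff.2 fun N hN => ?_
      by_contra hn
      exact Ultrafilter.compl_mem_iff_notMem.1 (hu ⟨Nᶜ, hN.2.isOpen_compl,
        Ultrafilter.compl_mem_iff_notMem.2 hn, univ, univ_mem,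
        hJ.mono (fun y hy => hy.2 hy.1.1) hJ.empty⟩) (hx hN.1)
    refine ⟨⟨(t, x), fun B hB h => (isClosed_ker _).mem_of_tendsto (f := id) (b := v) hvx
      (hv B hB h)⟩,
      rfl, ?_⟩
    exact tendsto_subtype_rng.2 (ht.prodMk_nhds hvx)
  refine hJ.mono ?_ (hJ.union (hd S _ (fun q => q.1.2) hp (by fun_prop))
    (hJ.sUnion ((countable_countableBasis T).image fun B => sec B \ ker J (sec B)) ?_))
  · rintro _ ⟨⟨t, x⟩, hq, rfl⟩
    by_cases h : ∀ B ∈ countableBasis T, t ∈ B → x ∈ ker J (sec B)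
    · exact Or.inl ⟨⟨(t, x), h⟩, rfl⟩
    · push Not at h
      obtain ⟨B, b1, b2, b3⟩ := h
      exact Or.inr ⟨_, ⟨B, b1, rfl⟩, ⟨t, b2, hq⟩, b3⟩
  · rintro _ ⟨B, -, rfl⟩
    exact hJ.diff_ker _

end

theorem lindelof_of_proper {S T : Type*} [TopologicalSpace S] [TopologicalSpace T]
    [LindelofSpace T] {p : S → T} (hp : IsProperMap p) : LindelofSpace S :=
  ⟨fun f _ _ _ => by
    obtain ⟨t, -, ht⟩ := isLindelof_univ (f := map p f) (le_principal_iff.2 univ_mem)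
    obtain ⟨s, -, hs⟩ := hp.clusterPt_of_mapClusterPt ht
    exact ⟨s, trivial, hs⟩⟩

theorem clopen_mem {T : Type*} [TopologicalSpace T] (N : Set X) :
    IsClopen {q : T × Ultrafilter X | N ∈ q.2} :=
  IsClopen.preimage ⟨ultrafilter_isClosed_basic N, ultrafilter_isOpen_basic N⟩ continuous_snd

theorem lindelof_Y0 [PseudoMetricSpace X] (J : Set X → Prop) (T : Type u) [TopologicalSpace T]
    [SecondCountableTopology T] [T2Space T] :
    IsLindelof {q : T × Ultrafilter X | q.2 ∈ Y0 J} := by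
  intro f _ _ hf
  by_contra hcon
  have := lindelof_of_proper (isProperMap_fst_of_compactSpace (X := T) (Y := Ultrafilter X))
  have conv : ∀ q, ClusterPt q f → ∃ x, (q.2 : Filter X) ≤ 𝓝 x := fun q hq => by
    by_contra hn
    refine hcon ⟨q, ⟨fun D hD h => ?_, not_exists.1 hn⟩, hq⟩
    obtain ⟨q', a, b⟩ := mem_closure_iff_nhds.1 (mem_closure_iff_clusterPt.2 (hq.mono hf)) _
      ((clopen_mem D).isOpen.mem_nhds h)
    exact b.1 D hD a
  have step : ∀ m : ℕ, ∃ W : Set (Set X), W.Countable ∧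
      (∀ N ∈ W, ∀ a ∈ N, ∀ b ∈ N, dist a b < 1 / (m + 1 : ℝ)) ∧ {q | ∃ N ∈ W, N ∈ q.2} ∈ f := by
    intro m
    have : ∀ q : T × Ultrafilter X, ∃ N : Set X, (∀ a ∈ N, ∀ b ∈ N, dist a b < 1 / (m + 1 : ℝ)) ∧
        ∃ V ∈ 𝓝 q, {q' | q' ∈ V → N ∈ q'.2} ∈ f := fun q => by
      by_cases h : ClusterPt q f
      · obtain ⟨x, hx⟩ := conv q h
        refine ⟨ball x (1 / (m + 1 : ℝ) / 2), fun a ha b hb => ?_, _,
          (clopen_mem _).isOpen.mem_nhds (hx (ball_mem_nhds x (half_pos Nat.one_div_pos_of_nat))),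
          univ_mem' fun _ => id⟩
        linarith [dist_triangle_right a b x, mem_ball.1 ha, mem_ball.1 hb]
      · obtain ⟨V, hV, V', hV', hd⟩ := Filter.disjoint_iff.1 (disjoint_iff.2 (not_neBot.1 h))
        exact ⟨∅, by simp, V, hV, mem_of_superset hV' fun q' a b => (disjoint_left.1 hd b a).elim⟩
    choose N h1 V h2 h3 using this
    obtain ⟨c, c1, -, c2⟩ := isLindelof_univ.elim_nhds_subcover V fun q _ => h2 q
    refine ⟨N '' c, c1.image N, by rintro _ ⟨q, -, rfl⟩; exact h1 q,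
      mem_of_superset ((countable_bInter_mem c1).2 fun q _ => h3 q) fun q hq => ?_⟩
    obtain ⟨q', a, b⟩ := mem_iUnion₂.1 (c2 (mem_univ q))
    exact ⟨_, ⟨q', a, rfl⟩, mem_iInter₂.1 hq q' a b⟩
  choose W w1 w2 w3 using step
  have := (countable_iUnion w1).to_subtype
  let g : T × Ultrafilter X → T × ((⋃ m, W m) → Bool) :=
    fun q => (q.1, fun N => {q : T × Ultrafilter X | N.1 ∈ q.2}.boolIndicator q)
  have gc : Continuous g := continuous_fst.prodMk (continuous_pi fun N =>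
    (continuous_boolIndicator_iff_isClopen _).2 (clopen_mem _))
  have gp : IsProperMap g := isProperMap_of_comp_of_t2 gc continuous_fst
    (isProperMap_fst_of_compactSpace (X := T) (Y := Ultrafilter X))
  obtain ⟨_, ⟨q0, ⟨a1, a2⟩, rfl⟩, hz⟩ := HereditarilyLindelofSpace.isLindelof
    (g '' ({q | q.2 ∈ Y0 J} ∩ ⋂ m, {q | ∃ N ∈ W m, N ∈ q.2})) (f := map g f)
    (le_principal_iff.2 (image_mem_map
      (inter_mem (le_principal_iff.1 hf) (countable_iInter_mem.2 w3))))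
  obtain ⟨q, e, hq⟩ := gp.clusterPt_of_mapClusterPt hz
  obtain ⟨x, hx⟩ := conv q hq
  refine a1.2 x (nhds_basis_ball.ge_iff.2 fun ε hε => ?_)
  obtain ⟨m, hm⟩ := exists_nat_one_div_lt (half_pos hε)
  obtain ⟨N, n1, n2⟩ := mem_iInter.1 a2 m
  have n3 : N ∈ q.2 := by
    have := congrFun (congrArg Prod.snd e) ⟨N, mem_iUnion.2 ⟨m, n1⟩⟩
    exact (mem_iff_boolIndicator _ _).2 (this.trans ((mem_iff_boolIndicator _ _).1 n2))
  obtain ⟨a, b1, b2⟩ := q.2.nonempty_of_mem (inter_mem n3 (hx (ball_mem_nhds x (half_pos hε))))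
  refine mem_of_superset n2 fun b hb => mem_ball.2 ?_
  linarith [dist_triangle b a x, w2 m N n1 b hb a b1, mem_ball.1 b2]

end Pool.Agent.MP_4716e9_gt.NN
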