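import Pool.Agent.MP_4716e9_gt.NN.A

open Set Topology Filter Metric TopologicalSpace

namespace Pool.Agent.MP_4716e9_gt.NN

universe u v

theorem regBase (T : Type u) [TopologicalSpace T] [MetrizableSpace T] [SeparableSpace T] :
    ∃ 𝓑 : Set (Set T), 𝓑.Countable ∧ (∀ B ∈ 𝓑, IsOpen B) ∧
      (∀ t, ∀ U ∈ 𝓝 t, ∃ B ∈ 𝓑, t ∈ B ∧ B ⊆ U) ∧
      ∀ t, ∀ U ∈ 𝓝 t, ∃ V ∈ 𝓝 t, {B ∈ 𝓑 | (B ∩ V).Nonempty ∧ ¬ B ⊆ U}.Finite := by
  let _ := metrizableSpaceMetric T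
  obtain ⟨f, hf⟩ := Metric.PiNatEmbed.exists_embedding_to_hilbert_cube (X := T)
  let _ := metrizableSpaceMetric (ℕ → unitInterval)
  choose c _ c1 c2 using fun k : ℕ => finite_cover_balls_of_compact
    (isCompact_univ (X := ℕ → unitInterval)) (Nat.one_div_pos_of_nat (n := k))
  let b : ℕ → Set (Set T) := fun k => (fun z => f ⁻¹' ball z (1 / (k + 1 : ℝ))) '' c k
  have A : ∀ t, ∀ U ∈ 𝓝 t, ∃ V ∈ 𝓝 t, ∃ k, ∀ j ≥ k, ∀ B ∈ b j, (B ∩ V).Nonempty → B ⊆ U := by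
    intro t U hU
    rw [hf.nhds_eq_comap] at hU
    obtain ⟨W, hW, h⟩ := hU
    obtain ⟨ε, hε, h'⟩ := Metric.mem_nhds_iff.1 hW
    obtain ⟨k, hk⟩ := exists_nat_one_div_lt (show 0 < ε / 3 by positivity)
    refine ⟨_, hf.continuous.tendsto t (ball_mem_nhds _ (show 0 < ε / 3 by positivity)), k, ?_⟩
    rintro j hj _ ⟨z, -, rfl⟩ ⟨s, s1, s2⟩ w hw
    refine h (h' (mem_ball.2 ?_))
    have := Nat.one_div_le_one_div (α := ℝ) hj
    linarith [dist_triangle4 (f w) z (f s) (f t), mem_ball.1 hw, mem_ball'.1 s1, mem_ball.1 s2]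
  refine ⟨⋃ k, b k, countable_iUnion fun k => ((c1 k).image _).countable, ?_, fun t U hU => ?_,
    fun t U hU => ?_⟩
  · intro B hB
    obtain ⟨k, z, -, rfl⟩ := mem_iUnion.1 hB
    exact isOpen_ball.preimage hf.continuous
  · obtain ⟨V, hV, k, h⟩ := A t U hU
    obtain ⟨z, z1, z2⟩ := mem_iUnion₂.1 (c2 k (mem_univ (f t)))
    exact ⟨_, mem_iUnion.2 ⟨k, z, z1, rfl⟩, z2, h k le_rfl _ ⟨z, z1, rfl⟩
      ⟨t, z2, mem_of_mem_nhds hV⟩⟩
  · obtain ⟨V, hV, k, h⟩ := A t U hU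
    refine ⟨V, hV, ((finite_Iio k).biUnion (t := b) fun j _ => (c1 j).image _).subset ?_⟩
    rintro B ⟨hB, h1, h2⟩
    obtain ⟨j, hj⟩ := mem_iUnion.1 hB
    exact mem_iUnion₂.2 ⟨j, not_le.1 fun e => h2 (h j e B hj h1), hj⟩

theorem injChoice {T : Type u} {I : Type v} [Countable I] (B : I → Set T)
    (hB : ∀ i, (B i).Infinite) : ∃ a : I → T, Function.Injective a ∧ ∀ i, a i ∈ B i := by
  classical
  obtain ⟨c, hc⟩ := Countable.exists_injective_nat I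
  choose g g1 g2 using fun (i : I) (s : Finset T) => (hB i).exists_notMem_finset s
  let s : ℕ → Finset T := fun n => Nat.rec ∅
    (fun n s => if h : ∃ i, c i = n then insert (g h.choose s) s else s) n
  have s1 : Monotone s := monotone_nat_of_le_succ fun n => by
    show s n ⊆ dite _ _ _
    split_ifs
    · exact Finset.subset_insert _ _
    · exact subset_rfl
  have s2 : ∀ i, g i (s (c i)) ∈ s (c i + 1) := fun i => by
    have h : ∃ j, c j = c i := ⟨i, rfl⟩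
    show _ ∈ dite _ _ _
    rw [dif_pos h, hc h.choose_spec]
    exact Finset.mem_insert_self _ _
  refine ⟨fun i => g i (s (c i)), fun i j e => hc ?_, fun i => g1 _ _⟩
  rcases lt_trichotomy (c i) (c j) with h | h | h
  · exact (g2 j _ ((show g i _ = g j _ from e) ▸ s1 h (s2 i))).elim
  · exact h
  · exact (g2 i _ ((show g i _ = g j _ from e).symm ▸ s1 h (s2 j))).elim

/-- countable covers by rectangles shrink in the second coordinate, over the points of `A` -/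
def Shr {T : Type u} (Y : Type v) [TopologicalSpace T] [TopologicalSpace Y] (A : Set T) : Prop :=
  ∀ (U : ℕ → Set T) (G : ℕ → Set Y), (∀ m, IsOpen (U m)) → (∀ m, IsOpen (G m)) →
    (∀ t y, ∃ m, t ∈ U m ∧ y ∈ G m) → ∃ 𝓔 : Set (ℕ × Set Y), 𝓔.Countable ∧
      (∀ e ∈ 𝓔, IsClosed e.2 ∧ e.2 ⊆ G e.1) ∧ ∀ t ∈ A, ∀ y, ∃ e ∈ 𝓔, t ∈ U e.1 ∧ y ∈ e.2

theorem shr_acc (T : Type u) (Y : Type v) [TopologicalSpace T] [MetrizableSpace T]
    [SeparableSpace T] [TopologicalSpace Y] [NormalSpace Y] [NormalSpace (T × Y)] :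
    Shr Y {t : T | (𝓝[≠] t).NeBot} := by
  intro U G hU hG hc
  obtain ⟨𝓑, b1, b2, b3, b4⟩ := regBase T
  let I := {B // B ∈ 𝓑 ∧ B.Infinite}
  have : Countable I := (b1.mono (sep_subset _ _)).to_subtype
  obtain ⟨c, hci⟩ := Countable.exists_injective_nat I
  obtain ⟨a, a1, a2⟩ := injChoice (fun p : I × Bool => p.1.1) fun p => p.1.2.2
  let g : I → ℕ → Set Y := fun i m => {y | (m ≤ c i ∧ i.1 ⊆ U m) ∧ y ∈ G m}
  have go : ∀ i m, IsOpen (g i m) := fun i m => isOpen_const.inter (hG m)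
  have cl : ∀ b, IsClosed (⋃ i, {a (i, b)} ×ˢ (⋃ m, g i m)ᶜ) := fun b => by
    refine LocallyFinite.isClosed_iUnion (fun q => ?_) fun i =>
      isClosed_singleton.prod (isOpen_iUnion (go i)).isClosed_compl
    obtain ⟨m, m1, m2⟩ := hc q.1 q.2
    obtain ⟨V, v1, v2⟩ := b4 q.1 _ ((hU m).mem_nhds m1)
    refine ⟨V ×ˢ G m, prod_mem_nhds v1 ((hG m).mem_nhds m2),
      (((finite_Iio m).preimage hci.injOn).union
        (v2.preimage Subtype.val_injective.injOn)).subset ?_⟩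
    rintro i ⟨r, ⟨r1, r2⟩, r3, r4⟩
    by_contra h
    have h1 : m ≤ c i := not_lt.1 fun e => h (Or.inl e)
    refine r2 (mem_iUnion.2 ⟨m, ⟨h1, not_not.1 fun e => h (Or.inr ⟨i.2.1, ⟨r.1, ?_, r3⟩, e⟩)⟩, r4⟩)
    exact (mem_singleton_iff.1 r1).symm ▸ a2 (i, b)
  obtain ⟨W, hW, w1, w2⟩ : ∃ W : Bool → Set (T × Y), (∀ b, IsOpen (W b)) ∧
      (∀ b, ⋃ i, {a (i, b)} ×ˢ (⋃ m, g i m)ᶜ ⊆ W b) ∧ ∀ q, ∃ b, q ∉ closure (W b) := by
    obtain ⟨W0, W1, o0, o1, s0, s1, hd⟩ := normal_separation (cl false) (cl true)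
      (disjoint_left.2 fun q h0 h1 => by
        obtain ⟨i, i1, -⟩ := mem_iUnion.1 h0
        obtain ⟨j, j1, -⟩ := mem_iUnion.1 h1
        simpa using a1 ((mem_singleton_iff.1 i1).symm.trans j1))
    obtain ⟨W2, o2, s2, s3⟩ := normal_exists_closure_subset (cl false) o0 s0
    refine ⟨fun b => cond b W1 W2, by rintro (_ | _) <;> assumption,
      by rintro (_ | _) <;> assumption, fun q => ?_⟩
    by_cases h : q ∈ W0
    · exact ⟨true, disjoint_left.1 (hd.closure_right o0) h⟩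
    · exact ⟨false, fun e => h (s3 e)⟩
  choose v v1 v2 v3 using fun p : I × Bool => exists_subset_iUnion_closed_subset
    (s := (Prod.mk (a p) ⁻¹' W p.2)ᶜ) (u := g p.1)
    ((hW _).preimage (Continuous.prodMk_right _)).isClosed_compl (go p.1)
    (fun y _ => (finite_Iic (c p.1)).subset fun m hm => hm.1.1)
    (fun y hy => not_not.1 fun e => hy (w1 p.2 (mem_iUnion.2 ⟨p.1, rfl, e⟩)))
  refine ⟨range fun p : (I × Bool) × ℕ => (p.2, v p.1 p.2), countable_range _, ?_, fun t ht y => ?_⟩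
  · rintro _ ⟨p, rfl⟩
    exact ⟨v2 _ _, fun y hy => (v3 _ _ hy).2⟩
  · obtain ⟨b, hb⟩ := w2 (t, y)
    obtain ⟨B, c1, c2, c3⟩ := b3 t _ ((Continuous.prodMk_left y).tendsto t
      (isClosed_closure.isOpen_compl.mem_nhds hb))
    have : (𝓝[≠] t).NeBot := ht
    let i : I := ⟨B, c1, infinite_of_mem_nhds t ((b2 B c1).mem_nhds c2)⟩
    obtain ⟨m, hm⟩ := mem_iUnion.1 (v1 (i, b) (a := y) fun e => c3 (a2 (i, b)) (subset_closure e))
    exact ⟨_, ⟨((i, b), m), rfl⟩, (v3 _ _ hm).1.2 c2, hm⟩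

theorem shr_univ (T T0 : Type u) (Y : Type v) [TopologicalSpace T] [SeparableSpace T]
    [TopologicalSpace T0] [TopologicalSpace Y] (h : Shr Y {t : T | (𝓝[≠] t).NeBot}) (t0 : T0)
    (h0 : Shr Y {t0}) : Shr Y (univ : Set T) := by
  intro U G hU hG hc
  obtain ⟨D, d1, d2⟩ := exists_countable_dense T
  obtain ⟨𝓔, e1, e2, e3⟩ := h U G hU hG hc
  choose 𝓕 f1 f2 f3 using fun t => h0 (fun m => {_s | t ∈ U m}) G (fun _ => isOpen_const) hG
    fun _ y => hc t y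
  refine ⟨𝓔 ∪ ⋃ t ∈ D, 𝓕 t, e1.union (d1.biUnion fun t _ => f1 t), ?_, fun t _ y => ?_⟩
  · rintro e (he | he)
    · exact e2 e he
    · obtain ⟨t, -, he⟩ := mem_iUnion₂.1 he
      exact f2 t e he
  · by_cases ht : (𝓝[≠] t).NeBot
    · obtain ⟨e, a, b⟩ := e3 t ht y
      exact ⟨e, Or.inl a, b⟩
    · obtain ⟨_, rfl, hs⟩ := d2.inter_open_nonempty _
        ((isOpen_singleton_iff_punctured_nhds t).2 (not_neBot.1 ht)) (singleton_nonempty t)
      obtain ⟨e, a, b⟩ := f3 _ t0 rfl y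
      exact ⟨e, Or.inr (mem_iUnion₂.2 ⟨_, hs, a⟩), b⟩

variable {X : Type u} [PseudoMetricSpace X] {Y : Type v} [TopologicalSpace Y]

theorem piece [NormalSpace Y] {T S : Type u} [TopologicalSpace T] [TopologicalSpace S]
    [LindelofSpace T] (hs : Shr Y (univ : Set T)) {p : S → T} {f : S → X} (hp : IsProperMap p)
    (hf : Continuous f) (H : Bool → Set (X × Y)) (hH : ∀ b, IsClosed (H b))
    (hd : Disjoint (H false) (H true)) :
    HasSeparatingCover (H false ∩ Prod.fst ⁻¹' range f) (H true) := by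
  classical
  have := lindelof_of_proper hp
  choose c c1 _ c2 using fun k : ℕ => (isLindelof_range hf).elim_nhds_subcover
    (fun x => ball x (1 / (k + 1 : ℝ))) fun x _ => ball_mem_nhds x Nat.one_div_pos_of_nat
  let I := (⋃ k, c k) × ℕ × Bool
  have : Countable (⋃ k, c k) := (countable_iUnion c1).to_subtype
  let V : I → Set X := fun i => ball i.1.1 (1 / (i.2.1 + 1 : ℝ))
  let g : I → Set Y := fun i => interior {y | ∀ x ∈ closure (V i), (x, y) ∉ H i.2.2}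
  have A : ∀ s y, ∃ i, f s ∈ V i ∧ y ∈ g i := fun s y => by
    obtain ⟨b, hb⟩ : ∃ b, (f s, y) ∉ H b := by
      by_cases h : (f s, y) ∈ H false
      · exact ⟨true, disjoint_left.1 hd h⟩
      · exact ⟨false, h⟩
    obtain ⟨a, ha, n, hn, h⟩ := mem_nhds_prod_iff.1 ((hH b).isOpen_compl.mem_nhds hb)
    obtain ⟨ε, hε, h'⟩ := Metric.mem_nhds_iff.1 ha
    obtain ⟨k, hk⟩ := exists_nat_one_div_lt (half_pos hε)
    obtain ⟨z, z1, z2⟩ := mem_iUnion₂.1 (c2 k ⟨s, rfl⟩)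
    refine ⟨(⟨z, mem_iUnion.2 ⟨k, z1⟩⟩, k, b), z2, mem_interior_iff_mem_nhds.2
      (mem_of_superset hn fun y' hy x hx => h (a := (x, y')) ⟨h' (mem_ball.2 ?_), hy⟩)⟩
    have : dist x z ≤ 1 / (k + 1 : ℝ) := closure_ball_subset_closedBall hx
    linarith [dist_triangle_right x (f s) z, mem_ball.1 z2]
  obtain ⟨σ, hσ⟩ := exists_surjective_nat (Finset I)
  obtain ⟨𝓔, e1, e2, e3⟩ := hs (fun m => (p '' (f ⁻¹' ⋃ i ∈ σ m, V i)ᶜ)ᶜ) (fun m => ⋂ i ∈ σ m, g i)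
    (fun m => (hp.isClosedMap _ ((isOpen_biUnion fun _ _ => isOpen_ball).preimage
      hf).isClosed_compl).isOpen_compl)
    (fun m => isOpen_biInter_finset fun _ _ => isOpen_interior) (fun t y => by
      choose i i1 i2 using fun s => A s y
      obtain ⟨r, -, hr⟩ := (hp.isCompact_preimage (isCompact_singleton (x := t))).elim_nhds_subcover
        (fun s => f ⁻¹' V (i s)) fun s _ => (isOpen_ball.preimage hf).mem_nhds (i1 s)
      obtain ⟨m, hm⟩ := hσ (r.image i)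
      refine ⟨m, ?_, ?_⟩
      · rintro ⟨s, s1, s2⟩
        obtain ⟨s', r1, r2⟩ := mem_iUnion₂.1 (hr s2)
        exact s1 (mem_iUnion₂.2 ⟨i s', hm ▸ Finset.mem_image_of_mem i r1, r2⟩)
      · refine mem_iInter₂.2 fun j hj => ?_
        obtain ⟨s, -, rfl⟩ := Finset.mem_image.1 (hm ▸ hj)
        exact i2 s)
  choose G G1 G2 G3 using fun e : 𝓔 => normal_exists_closure_subset (e2 e e.2).1
    (isOpen_biInter_finset fun _ _ => isOpen_interior) (e2 e e.2).2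
  have := e1.to_subtype
  refine hasSep ((fun q : 𝓔 × I => V q.2 ×ˢ G q.1) '' {q | q.2 ∈ σ q.1.1.1 ∧ q.2.2.2 = true})
    ((to_countable _).image _) ?_ ?_
  · rintro ⟨_, y⟩ ⟨q1, s, rfl⟩
    obtain ⟨e, a1, a2, a3⟩ := e3 (p s) trivial y
    obtain ⟨i, i1, i2⟩ := mem_iUnion₂.1 (not_not.1 fun h => a2 ⟨s, h, rfl⟩)
    refine ⟨_, ⟨(⟨e, a1⟩, i), ⟨i1, ?_⟩, rfl⟩, i2, G2 _ a3⟩
    have := interior_subset (mem_iInter₂.1 ((e2 e a1).2 a3) i i1) _ (subset_closure i2)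
    by_contra h
    exact this (Bool.eq_false_iff.2 h ▸ q1)
  · rintro _ ⟨q, ⟨q1, q2⟩, rfl⟩
    refine ⟨isOpen_ball.prod (G1 _), disjoint_left.2 fun r r1 r2 => ?_⟩
    rw [closure_prod_eq] at r1
    exact interior_subset (mem_iInter₂.1 (G3 _ r1.2) _ q1) _ r1.1 (q2 ▸ r2)

theorem normal_of [NormalSpace Y] {ι : Type*} {T : ι → Type u} [∀ i, TopologicalSpace (T i)]
    [∀ i, LindelofSpace (T i)] (hs : ∀ i, Shr Y (univ : Set (T i)))
    (hX : SigmaLocallyDetermined T X) : NormalSpace (X × Y) := by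
  suffices h : ∀ H0 H1 : Set (X × Y), IsClosed H0 → IsClosed H1 → Disjoint H0 H1 →
      HasSeparatingCover H0 H1 from ⟨fun s t hs ht hd =>
    hasSeparatingCovers_iff_separatedNhds.1 ⟨h s t hs ht hd, h t s ht hs hd.symm⟩⟩
  intro H0 H1 h0 h1 hd
  obtain ⟨E, e1, e2⟩ := hX
  choose O o1 i S _ p f hp hf o2 using fun n (a : E n) => e2 n a a.2
  choose w w1 w2 using fun n a => piece (hs (i n a)) (hp n a) (hf n a) (fun b => cond b H1 H0)
    (by rintro (_ | _) <;> assumption) hd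
  choose F f1 f2 f3 using fun n => sep (fun a => interior (O n a)) fun _ => isOpen_interior
  refine hasSep (range fun q : ℕ × ℕ × ℕ => ⋃ a, w q.1 a q.2.2 ∩
    Prod.fst ⁻¹' thickening (1 / (q.2.1 + 1 : ℝ) / 4) (F q.1 q.2.1 a)) (countable_range _)
    (fun q hq => ?_) ?_
  · obtain ⟨n, hn⟩ := mem_iUnion.1 (e1.symm ▸ mem_univ q.1)
    obtain ⟨k, a, ha⟩ := f2 n ⟨_, hn⟩ q.1 (mem_interior_iff_mem_nhds.2 (o1 n ⟨_, hn⟩))
    obtain ⟨j, hj⟩ := mem_iUnion.1 (w1 n a ⟨hq, o2 n a ⟨interior_subset (f1 n k a ha), hn⟩⟩)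
    exact ⟨_, ⟨(n, k, j), rfl⟩, mem_iUnion.2 ⟨a, hj, self_subset_thickening (by positivity) _ ha⟩⟩
  · rintro _ ⟨⟨n, k, j⟩, rfl⟩
    refine ⟨isOpen_iUnion fun a => (w2 n a j).1.inter (isOpen_thickening.preimage continuous_fst),
      ?_⟩
    rw [LocallyFinite.closure_iUnion, disjoint_iUnion_left]
    · exact fun a => (w2 n a j).2.mono_left (closure_mono inter_subset_left)
    · refine fun q => ⟨_, continuous_fst.tendsto q (ball_mem_nhds q.1
        (show 0 < 1 / (k + 1 : ℝ) / 4 by positivity)), Subsingleton.finite ?_⟩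
      rintro a ⟨r, ⟨-, r1⟩, r2⟩ b ⟨s, ⟨-, s1⟩, s2⟩
      obtain ⟨x, x1, x2⟩ := mem_thickening_iff.1 r1
      obtain ⟨y, y1, y2⟩ := mem_thickening_iff.1 s1
      refine f3 n k a b x x1 y y1 ?_
      linarith [dist_triangle4 x r.1 s.1 y, dist_triangle_right r.1 s.1 q.1, mem_ball.1 r2,
        mem_ball.1 s2, dist_comm x r.1]

end Pool.Agent.MP_4716e9_gt.NN
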