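import Pool.Agent.MP_4716e9_gt.NN.A

open Set Topology Filter Metric TopologicalSpace

namespace Pool.Agent.MP_4716e9_gt.NN

universe u v

variable {X : Type u}

/-- the test space -/
abbrev TY [TopologicalSpace X] (J : Set X → Prop) : Type u :=
  {u : Ultrafilter X // (∃ x, u = pure x) ∨ u ∈ Y0 J}

theorem nhdsTY [TopologicalSpace X] {J : Set X → Prop} {y : TY J} {v : Set (TY J)} (h : v ∈ 𝓝 y) :
    ∃ N ∈ y.1, ∀ y' : TY J, N ∈ y'.1 → y' ∈ v := by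
  obtain ⟨w, hw, h1⟩ := (mem_nhds_subtype _ _ _).1 h
  obtain ⟨_, ⟨N, rfl⟩, h2, h3⟩ := ultrafilterBasis_is_basis.mem_nhds_iff.1 hw
  exact ⟨N, h2, fun y' hy => h1 (h3 hy)⟩

theorem clopenTY [TopologicalSpace X] {J : Set X → Prop} {T : Type u} [TopologicalSpace T]
    (N : Set X) : IsClopen {q : T × TY J | N ∈ q.2.1} :=
  IsClopen.preimage ⟨ultrafilter_isClosed_basic N, ultrafilter_isOpen_basic N⟩
    (continuous_subtype_val.comp continuous_snd)

theorem normalTY [PseudoMetricSpace X] {J : Set X → Prop} (hJ : Idl J) {T : Type u}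
    [TopologicalSpace T] [SecondCountableTopology T] [T3Space T]
    (hd : ∀ (S : Type u) [TopologicalSpace S] (p : S → T) (f : S → X), IsProperMap p →
      Continuous f → J (range f)) : NormalSpace (T × TY J) := by
  let miss : Set (T × TY J) → Set T × Set X → Prop :=
    fun H p => ∀ r ∈ H, r.1 ∈ closure p.1 → p.2 ∉ r.2.1
  have rect : ∀ H, IsClosed H → ∀ q ∉ H, ∃ B ∈ countableBasis T, q.1 ∈ B ∧ ∃ N ∈ q.2.1,
      miss H (B, N) := fun H hH q hq => by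
    obtain ⟨a, ha, b, hb, h⟩ := mem_nhds_prod_iff.1 (hH.isOpen_compl.mem_nhds hq)
    obtain ⟨B, b1, b2, b3⟩ := (isBasis_countableBasis T).exists_closure_subset ha
    obtain ⟨N, n1, n2⟩ := nhdsTY hb
    exact ⟨B, b1, b2, N, n1, fun r hr c d => h (a := r) ⟨b3 c, n2 _ d⟩ hr⟩
  suffices h : ∀ H0 H1 : Set (T × TY J), IsClosed H0 → IsClosed H1 → Disjoint H0 H1 →
      HasSeparatingCover H0 H1 from ⟨fun s t hs ht hd =>
    hasSeparatingCovers_iff_separatedNhds.1 ⟨h s t hs ht hd, h t s ht hs hd.symm⟩⟩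
  intro H0 H1 h0 h1 h01
  obtain ⟨c, c1, c2⟩ := (lindelof_Y0 J T).elim_countable_subcover
    (fun p : {p : Set T × Set X // p.1 ∈ countableBasis T ∧ (miss H0 p ∨ miss H1 p)} =>
      {q | q.1 ∈ p.1.1} ∩ {q | p.1.2 ∈ q.2})
    (fun p => ((isOpen_of_mem_countableBasis p.2.1).preimage continuous_fst).inter
      (clopen_mem _).isOpen) (fun q hq => by
      by_cases h : (q.1, ⟨q.2, Or.inr hq⟩) ∈ H0
      · obtain ⟨B, b1, b2, N, n1, n2⟩ := rect H1 h1 _ (disjoint_left.1 h01 h)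
        exact mem_iUnion.2 ⟨⟨(B, N), b1, Or.inr n2⟩, b2, n1⟩
      · obtain ⟨B, b1, b2, N, n1, n2⟩ := rect H0 h0 _ h
        exact mem_iUnion.2 ⟨⟨(B, N), b1, Or.inl n2⟩, b2, n1⟩)
  have hD := key hJ hd {q | ∀ p ∈ c, q.1 ∈ p.1.1 → q.2 ∉ p.1.2} fun t u hu => by
    obtain ⟨p, p1, p2, p3⟩ := mem_iUnion₂.1 (c2 (a := (t, u)) hu)
    refine ⟨_, (isOpen_of_mem_countableBasis p.2.1).mem_nhds p2, fun h => ?_⟩
    obtain ⟨x, ⟨s, s1, s2⟩, x2⟩ := u.nonempty_of_mem (inter_mem h p3)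
    exact s2 p p1 s1 x2
  set D := Prod.snd '' {q : T × X | ∀ p ∈ c, q.1 ∈ p.1.1 → q.2 ∉ p.1.2}
  let e : Set T → Set T × Set X := fun B => (B, {d ∈ D | miss H1 (B, {d})})
  refine hasSep ((fun p : Set T × Set X => {q | q.1 ∈ p.1} ∩ {q | p.2 ∈ q.2.1}) ''
    {p ∈ Subtype.val '' c ∪ e '' countableBasis T | miss H1 p})
    ((((c1.image _).union ((countable_countableBasis T).image _)).mono (sep_subset _ _)).image _)
    (fun q hq => ?_) ?_
  · have A : ∀ p ∈ c, q.1 ∈ p.1.1 → p.1.2 ∈ q.2.1 → miss H1 p.1 := fun p _ a b =>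
      p.2.2.resolve_left fun h => h q hq (subset_closure a) b
    by_cases h : ∃ p ∈ c, q.1 ∈ p.1.1 ∧ p.1.2 ∈ q.2.1
    · obtain ⟨p, p1, p2, p3⟩ := h
      exact ⟨_, ⟨p.1, ⟨Or.inl ⟨p, p1, rfl⟩, A p p1 p2 p3⟩, rfl⟩, p2, p3⟩
    rcases q.2.2 with ⟨x, hx⟩ | hy
    · obtain ⟨B, b1, b2, N, n1, n2⟩ := rect H1 h1 q (disjoint_left.1 h01 hq)
      refine ⟨_, ⟨e B, ⟨Or.inr ⟨B, b1, rfl⟩, fun r r1 r2 r3 => ?_⟩, rfl⟩, b2, ?_⟩
      · rcases r.2.2 with ⟨y, hy⟩ | hy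
        · have : miss H1 (B, {y}) := (Ultrafilter.mem_pure.1 (hy ▸ r3)).2
          exact this r r1 r2 (hy ▸ Ultrafilter.mem_pure.2 rfl)
        · exact hy.1 _ (hJ.mono (sep_subset _ _) hD) r3
      · show _ ∈ q.2.1
        rw [hx] at n1 ⊢
        refine Ultrafilter.mem_pure.2 ⟨⟨(q.1, x), fun p p1 p2 p3 => h ⟨p, p1, p2, ?_⟩, rfl⟩,
          fun r r1 r2 r3 => n2 r r1 r2 (mem_of_superset r3 ?_)⟩
        · exact hx ▸ Ultrafilter.mem_pure.2 p3
        · exact singleton_subset_iff.2 n1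
    · obtain ⟨p, p1, p2, p3⟩ := mem_iUnion₂.1 (c2 (a := (q.1, q.2.1)) hy)
      exact (h ⟨p, p1, p2, p3⟩).elim
  · rintro _ ⟨p, ⟨p1, p2⟩, rfl⟩
    refine ⟨(IsOpen.preimage continuous_fst ?_).inter (clopenTY _).isOpen,
      disjoint_left.2 fun r r1 r2 => ?_⟩
    · rcases p1 with ⟨p, -, rfl⟩ | ⟨B, b, rfl⟩
      · exact isOpen_of_mem_countableBasis p.2.1
      · exact isOpen_of_mem_countableBasis b
    · have := closure_minimal (t := Prod.fst ⁻¹' closure p.1 ∩ {q | p.2 ∈ q.2.1})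
        (fun q hq => ⟨subset_closure hq.1, hq.2⟩) ((isClosed_closure.preimage continuous_fst).inter (clopenTY _).isClosed) r1
      exact p2 r r2 this.1 this.2

theorem univ_mem_idl [PseudoMetricSpace X] [T1Space X] {J : Set X → Prop} (hJ : Idl J)
    (hs : ∀ D, (∀ u ∈ Y0 J, D ∉ u) → J D) [NormalSpace (X × TY J)] : J univ := by
  have c1 : IsClosed {q : X × TY J | q.2.1 = pure q.1} := by
    refine isOpen_compl_iff.1 (isOpen_iff_mem_nhds.2 fun q hq => ?_)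
    obtain ⟨O, o1, o2⟩ : ∃ O ∈ 𝓝 q.1, O ∉ q.2.1 := by
      rcases q.2.2 with ⟨x, hx⟩ | hy
      · exact ⟨{x}ᶜ, isOpen_compl_singleton.mem_nhds fun e => hq (hx.trans (by rw [e])),
          by simp [hx]⟩
      · simpa [le_def] using hy.2 q.1
    refine mem_of_superset (inter_mem (continuous_fst.tendsto q o1)
      ((clopenTY O).compl.isOpen.mem_nhds o2)) fun r hr e => hr.2 ?_
    exact ((show r.2.1 = _ from e) ▸ Ultrafilter.mem_pure.2 hr.1 : O ∈ r.2.1)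
  obtain ⟨U, V, hU, hV, u1, v1, hd⟩ := normal_separation c1
    (isClosed_iInter fun x => (clopenTY (T := X) (J := J) {x}).compl.isClosed)
    (disjoint_left.2 fun q a b => mem_iInter.1 b q.1
      ((show q.2.1 = _ from a) ▸ Ultrafilter.mem_pure.2 rfl : {q.1} ∈ q.2.1))
  let pt : X → TY J := fun x => ⟨pure x, Or.inl ⟨x, rfl⟩⟩
  refine hJ.mono (B := ⋃ n : ℕ, {x | ∀ a ∈ ball x (1 / (n + 1 : ℝ)), (a, pt x) ∈ U})
    (fun x _ => ?_) (hJ.iUnion _ fun n => hJ.loc _ fun x _ =>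
      ⟨_, ball_mem_nhds x (Nat.one_div_pos_of_nat (n := n)), hs _ fun u hu h => ?_⟩)
  · obtain ⟨ε, hε, h⟩ := Metric.isOpen_iff.1 (hU.preimage (Continuous.prodMk_left (pt x))) x
      (u1 rfl)
    obtain ⟨k, hk⟩ := exists_nat_one_div_lt hε
    exact mem_iUnion.2 ⟨k, fun a ha => h (ball_subset_ball hk.le ha)⟩
  · obtain ⟨N, n1, n2⟩ := nhdsTY ((hV.preimage (Continuous.prodMk_right x)).mem_nhds
      (x := ⟨u, Or.inr hu⟩) (v1 (mem_iInter.2 fun y hy =>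
        hu.2 y ((le_pure_iff.2 hy).trans (pure_le_nhds y)))))
    obtain ⟨y, y1, y2, y3⟩ := u.nonempty_of_mem (inter_mem n1 h)
    exact disjoint_left.1 hd (y3 x (mem_ball_comm.1 y2)) (n2 (pt y) y1)

theorem forward {ι : Type v} (T : ι → Type u) [∀ i, TopologicalSpace (T i)]
    [∀ i, SecondCountableTopology (T i)] [∀ i, T3Space (T i)] (i0 : ι) (t0 : T i0)
    [PseudoMetricSpace X] [T1Space X]
    (h : ∀ (Y : Type u) [TopologicalSpace Y] [T1Space Y], (∀ i, NormalSpace (T i × Y)) →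
      NormalSpace (X × Y)) : SigmaLocallyDetermined T X := by
  have hJ : Idl (SL (X := X) (Determined T)) := idl_SL fun h ⟨i, S, t, p, f, a, b, c⟩ =>
    ⟨i, S, t, p, f, a, b, h.trans c⟩
  have hd : ∀ i (S : Type u) [TopologicalSpace S] (p : S → T i) (f : S → X), IsProperMap p →
      Continuous f → SL (Determined T) (range f) := fun i S _ p f a b =>
    ⟨fun _ => range f, subset_iUnion (fun _ : ℕ => range f) 0, fun _ _ _ =>
      ⟨univ, univ_mem, i, S, _, p, f, a, b, inter_subset_right⟩⟩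
  have := h (TY (SL (X := X) (Determined T))) fun i => normalTY hJ (hd i)
  obtain ⟨E, e1, e2⟩ := univ_mem_idl hJ fun D hD => hJ.mono
    (B := Prod.snd '' {q : T i0 × X | q.2 ∈ D}) (fun x hx => ⟨(t0, x), hx, rfl⟩) (key hJ (hd i0) {q | q.2 ∈ D} fun t u hu => ⟨univ, univ_mem, fun h =>
      hD u hu (mem_of_superset h fun x ⟨_, _, hx⟩ => hx)⟩)
  exact ⟨E, univ_subset_iff.1 e1, e2⟩

end Pool.Agent.MP_4716e9_gt.NN
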