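import Pool.Agent.MP_4716e9_gt.NN.B
import Pool.Agent.MP_4716e9_gt.NN.C
import Pool.Agent.MP_4716e9_gt.Main

open Set Topology Filter Metric TopologicalSpace

namespace Pool.Agent.MP_4716e9_gt.NN

universe u v

theorem shr_perfect (T : Type u) (Y : Type v) [TopologicalSpace T] [TopologicalSpace Y]
    [PerfectlyNormalSpace Y] : Shr Y (univ : Set T) := by
  intro U G _ hG hc
  choose g _ g1 g2 using fun m => exhaust (G m) (hG m)
  refine ⟨range fun q : ℕ × ℕ => (q.1, closure (g q.1 q.2)), countable_range _, ?_, fun t _ y => ?_⟩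
  · rintro _ ⟨q, rfl⟩
    exact ⟨isClosed_closure, (g2 _ _).2⟩
  · obtain ⟨m, m1, m2⟩ := hc t y
    obtain ⟨j, hj⟩ := mem_iUnion.1 (g1 m m2)
    exact ⟨_, ⟨(m, j), rfl⟩, m1, subset_closure hj⟩

theorem metrizable_of_bing (X : Type u) [TopologicalSpace X] [T1Space X] [SeparableSpace X]
    [NormalSpace (X × Bing (Pointed X))] : MetrizableSpace X := by
  have hc : Core X := core_of_bing
  have : T3Space X := (isEmbedding_prodMkLeft (Bing.iso (I := Pointed X) (fun _ => True) 0)).t3Space
  obtain ⟨B, b1, b2⟩ := hc.pointFinite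
  obtain ⟨D, d1, d2⟩ := exists_countable_dense X
  have c1 : (⋃ n, ⋃ d ∈ D, {b | b ∈ B n ∧ d ∈ b}).Countable :=
    countable_iUnion fun n => d1.biUnion fun d _ => (b1 n d).countable
  have : SecondCountableTopology X := (isTopologicalBasis_of_isOpen_of_nhds
    (s := (fun F => interior (closure (⋃₀ F))) ''
      {F | F.Finite ∧ F ⊆ ⋃ n, ⋃ d ∈ D, {b | b ∈ B n ∧ d ∈ b}})
    (by rintro _ ⟨F, -, rfl⟩; exact isOpen_interior) fun x U hx hU => by
      obtain ⟨K, ⟨k1, k2⟩, k3⟩ := (closed_nhds_basis x).mem_iff.1 (hU.mem_nhds hx)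
      obtain ⟨F, f1, f2, f3, f4⟩ := b2 x _ isOpen_interior (mem_interior_iff_mem_nhds.2 k1)
      refine ⟨_, ⟨_, ⟨f1.inter_of_left _, inter_subset_right⟩, rfl⟩, mem_interior_iff_mem_nhds.2
        (mem_of_superset (interior_mem_nhds.2 f3) ((d2.open_subset_closure_inter
          isOpen_interior).trans (closure_mono ?_))), interior_subset.trans
        ((closure_minimal ((sUnion_subset_sUnion inter_subset_left).trans
          (f4.trans interior_subset)) k2).trans k3)⟩
      rintro d ⟨h1, h2⟩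
      obtain ⟨b, h3, h4⟩ := interior_subset h1
      obtain ⟨n, hn⟩ := mem_iUnion.1 (f2 h3)
      exact ⟨b, ⟨h3, mem_iUnion.2 ⟨n, mem_iUnion₂.2 ⟨d, h2, hn, h4⟩⟩⟩, h4⟩).secondCountableTopology
    ((countable_ofPred_finite_subset c1).image _)
  infer_instance

theorem main {ι : Type v} (T : ι → Type u) [∀ i, TopologicalSpace (T i)]
    [∀ i, MetrizableSpace (T i)] [∀ i, SeparableSpace (T i)] (hT : ∃ i, ¬ DiscreteTopology (T i))
    (X : Type u) [TopologicalSpace X] [T1Space X] (hX : MetrizableSpace X ∨ SeparableSpace X) :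
    (∀ (Y : Type u) [TopologicalSpace Y] [T1Space Y], (∀ i, NormalSpace (T i × Y)) →
      NormalSpace (X × Y)) ↔ MetrizableSpace X ∧ SigmaLocallyDetermined T X := by
  obtain ⟨i0, h0⟩ := hT
  obtain ⟨t0, ht0⟩ := not_forall.1 (mt discreteTopology_iff_nhds_ne.2 h0)
  have sc : ∀ i, SecondCountableTopology (T i) := fun i =>
    let _ := metrizableSpaceMetric (T i)
    UniformSpace.secondCountable_of_separable _
  refine ⟨fun h => ?_, fun ⟨hm, hs⟩ Y _ _ h => ?_⟩
  · have hm : MetrizableSpace X := by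
      refine hX.elim id fun _ => ?_
      have := h (Bing (Pointed X)) fun i =>
        let _ := metrizableSpaceMetric (T i)
        normal_of (T := fun _ : Unit => T i) (fun _ => shr_perfect _ _)
          ⟨fun _ => univ, iUnion_const _, fun _ _ _ => ⟨univ, univ_mem, (), T i, _, id, id,
            isProperMap_id, continuous_id, by simp⟩⟩
      exact metrizable_of_bing X
    let _ := metrizableSpaceMetric X
    exact ⟨hm, forward T i0 t0 h⟩
  · let _ := metrizableSpaceMetric X
    have : NormalSpace Y := (IsClosedEmbedding.of_continuous_injective_isClosedMap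
      (Continuous.prodMk_right t0) (Prod.mk_right_injective t0)
      (isClosedMap_prodMk_left t0)).normalSpace
    refine normal_of (fun i => shr_univ _ (T i0) _ (shr_acc _ _) t0 fun U G a b c => ?_) hs
    obtain ⟨𝓔, e1, e2, e3⟩ := shr_acc (T i0) Y U G a b c
    exact ⟨𝓔, e1, e2, fun t ht => e3 t (ht ▸ ⟨ht0⟩)⟩

end Pool.Agent.MP_4716e9_gt.NN
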