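import Mathlib

open Set Topology

namespace Pool.Agent.MP_4716e9_gt.NN

universe u v

/-- `A` lies in a continuous image of a space that has a proper map to one of the spaces `T i`. -/
def Determined {ι : Type v} (T : ι → Type u) [∀ i, TopologicalSpace (T i)] {X : Type u}
    [TopologicalSpace X] (A : Set X) : Prop :=
  ∃ (i : ι) (S : Type u) (_ : TopologicalSpace S) (p : S → T i) (f : S → X),
    IsProperMap p ∧ Continuous f ∧ A ⊆ range f

/-- `X` is the union of a sequence of subsets, each of which is determined by the family `T`
near each of its points. -/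
def SigmaLocallyDetermined {ι : Type v} (T : ι → Type u) [∀ i, TopologicalSpace (T i)]
    (X : Type u) [TopologicalSpace X] : Prop :=
  ∃ E : ℕ → Set X, (⋃ n, E n) = univ ∧ ∀ n, ∀ x ∈ E n, ∃ O ∈ 𝓝 x, Determined T (O ∩ E n)

end Pool.Agent.MP_4716e9_gt.NN
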